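import Pool.Agent.Y764.R10.Fmo

/-!
# R13/FMP, part 1 (helper438 for helper766, job 10219): asymptotic form of the first moment

The proof follows `Pool/Agent/Y764/R10/Fmo.lean` of helper764.
-/

set_option autoImplicit false

namespace Pool.Agent.Y438.R13

open Finset
open Pool.Agent.Y766.R10 (WG ww mw AA MM)
open Pool.Agent.Y764.R10

theorem num2 {Q κ δ d : ℝ} (hQ : 1 ≤ Q) (hκ : 0 < κ) (hκ1 : κ ≤ 1 / 100) (hδ : 3 * κ ≤ δ)
    (hd : Q ^ (1 / 4 + δ) ≤ d) :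
    Q ^ κ * Real.sqrt (2 / d) ≤ 2 * Q ^ (-(1 / 10) : ℝ) ∧
    Q ^ κ * Real.sqrt (2 * Q ^ κ / d) ≤ 2 * Q ^ (-(1 / 10) : ℝ) ∧
    Q ^ κ * Real.sqrt (2 * (Q ^ κ) ^ 2 / d) ≤ 2 * Q ^ (-(1 / 10) : ℝ) ∧
    Q ^ κ * (2 * Real.sqrt (Q ^ (1 / 2 + κ)) / d) ≤ 2 * Q ^ (-(δ / 2) : ℝ) := by
  have hQ0 : 0 < Q := by linarith
  have hy1 : 1 ≤ Q ^ κ := Real.one_le_rpow hQ hκ.le
  have hy0 : 0 < Q ^ κ := by linarith
  have hd0 : 0 < d := lt_of_lt_of_le (Real.rpow_pos_of_pos hQ0 _) hd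
  have hr0 : 0 < Q ^ (-(1 / 10) : ℝ) := Real.rpow_pos_of_pos hQ0 _
  have h3 : Q ^ κ * Real.sqrt (2 * (Q ^ κ) ^ 2 / d) ≤ 2 * Q ^ (-(1 / 10) : ℝ) := by
    have h4 : Real.sqrt (2 * (Q ^ κ) ^ 2 / d) ≤ 2 * Q ^ (-(1 / 10) : ℝ) / Q ^ κ := by
      rw [Real.sqrt_le_iff]
      refine ⟨by positivity, ?_⟩
      rw [div_pow, div_le_div_iff₀ hd0 (by positivity)]
      have h5 : (Q ^ κ) ^ 2 * (Q ^ κ) ^ 2 = Q ^ (4 * κ) := by
        rw [← pow_add, ← Real.rpow_natCast, ← Real.rpow_mul hQ0.le]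
        congr 1
        push_cast
        ring
      have h6 : (Q ^ (-(1 / 10) : ℝ)) ^ 2 = Q ^ (-(1 / 5) : ℝ) := by
        rw [← Real.rpow_natCast, ← Real.rpow_mul hQ0.le]
        congr 1
        push_cast
        ring
      have h7 : Q ^ (4 * κ) ≤ Q ^ (-(1 / 5) : ℝ) * d := by
        calc Q ^ (4 * κ) ≤ Q ^ (-(1 / 5) + (1 / 4 + δ) : ℝ) :=
              Real.rpow_le_rpow_of_exponent_le hQ (by linarith)
          _ = Q ^ (-(1 / 5) : ℝ) * Q ^ (1 / 4 + δ) := Real.rpow_add hQ0 _ _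
          _ ≤ _ := mul_le_mul_of_nonneg_left hd (by positivity)
      have h8 : 0 ≤ Q ^ (-(1 / 5) : ℝ) * d := by positivity
      calc 2 * (Q ^ κ) ^ 2 * (Q ^ κ) ^ 2 = 2 * ((Q ^ κ) ^ 2 * (Q ^ κ) ^ 2) := by ring
        _ = 2 * Q ^ (4 * κ) := by rw [h5]
        _ ≤ 4 * (Q ^ (-(1 / 5) : ℝ) * d) := by linarith
        _ = (2 * Q ^ (-(1 / 10) : ℝ)) ^ 2 * d := by rw [mul_pow, h6]; ring
    calc Q ^ κ * Real.sqrt (2 * (Q ^ κ) ^ 2 / d) ≤ Q ^ κ * (2 * Q ^ (-(1 / 10) : ℝ) / Q ^ κ) :=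
          mul_le_mul_of_nonneg_left h4 hy0.le
      _ = _ := by field_simp
  refine ⟨?_, ?_, h3, ?_⟩
  · refine le_trans (mul_le_mul_of_nonneg_left (Real.sqrt_le_sqrt ?_) hy0.le) h3
    apply div_le_div_of_nonneg_right _ hd0.le
    nlinarith
  · refine le_trans (mul_le_mul_of_nonneg_left (Real.sqrt_le_sqrt ?_) hy0.le) h3
    apply div_le_div_of_nonneg_right _ hd0.le
    nlinarith
  · have h4 : Real.sqrt (Q ^ (1 / 2 + κ)) = Q ^ (1 / 4 + κ / 2) := by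
      rw [Real.sqrt_eq_rpow, ← Real.rpow_mul hQ0.le]
      congr 1
      ring
    rw [h4]
    have h5 : Q ^ κ * Q ^ (1 / 4 + κ / 2) ≤ Q ^ (-(δ / 2) : ℝ) * d := by
      calc Q ^ κ * Q ^ (1 / 4 + κ / 2) = Q ^ (κ + (1 / 4 + κ / 2)) := (Real.rpow_add hQ0 _ _).symm
        _ ≤ Q ^ (-(δ / 2) + (1 / 4 + δ) : ℝ) :=
            Real.rpow_le_rpow_of_exponent_le hQ (by linarith)
        _ = Q ^ (-(δ / 2) : ℝ) * Q ^ (1 / 4 + δ) := Real.rpow_add hQ0 _ _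
        _ ≤ _ := mul_le_mul_of_nonneg_left hd (by positivity)
    calc Q ^ κ * (2 * Q ^ (1 / 4 + κ / 2) / d) = 2 * (Q ^ κ * Q ^ (1 / 4 + κ / 2)) / d := by ring
      _ ≤ 2 * (Q ^ (-(δ / 2) : ℝ) * d) / d := by
          apply div_le_div_of_nonneg_right _ hd0.le
          linarith
      _ = _ := by field_simp

open Classical in
/-- the asymptotic form of the mollified first moment -/
theorem asym (hMOB : Pool.Agent.Y766.R10.S_MOB) : ∀ δ κ t C ε : ℝ, 0 < δ → 0 < κ → 3 * κ ≤ δ →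
  κ ≤ 1 / 100 → 0 < C → 0 < ε →
  ∀ (p : ℕ) [Fact p.Prime], 3 ≤ p → ∃ ν₀ : ℕ, ∀ (ν m : ℕ) (hmν : m < ν), ν₀ ≤ ν →
  (1 / 4 + δ) * ν ≤ m → 2 * m ≤ ν → ∀ χ : DirichletCharacter ℂ (p ^ ν), χ.IsPrimitive →
  ∀ G : ℝ → ℂ, WG C G → (∀ v, 1 / 2 + κ ≤ v → G v = 0) → ∀ γ : ℂ, ‖γ‖ = 1 →
  ‖∑ θ ∈ (univ : Finset (DirichletCharacter ℂ (p ^ m))).filter
      (fun θ => (χ * DirichletCharacter.changeLevel (pow_dvd_pow p hmν.le) θ).Even),
    (AA (χ * DirichletCharacter.changeLevel (pow_dvd_pow p hmν.le) θ) G t +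
      γ * (gaussSum (χ * DirichletCharacter.changeLevel (pow_dvd_pow p hmν.le) θ) ZMod.stdAddChar /
        (Real.sqrt ((p : ℝ) ^ ν) : ℂ)) *
      (starRingEnd ℂ) (AA (χ * DirichletCharacter.changeLevel (pow_dvd_pow p hmν.le) θ) G t)) *
      MM (χ * DirichletCharacter.changeLevel (pow_dvd_pow p hmν.le) θ) κ t -
      ((p ^ m).totient : ℂ) / 2 * G 0‖ ≤ ε * ((p ^ m).totient : ℝ) := by
  obtain ⟨CM, hCM, hM⟩ := hMOB
  intro δ κ t C ε hδ hκ hκδ hκ1 hC hε p hpF hp3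
  have hp : p.Prime := hpF.out
  have hev := (err_tendsto C CM κ δ p hκ hδ (by omega)).eventually
    (ge_mem_nhds hε)
  rw [Filter.eventually_atTop] at hev
  obtain ⟨ν₁, hν₁⟩ := hev
  refine ⟨max ν₁ 2, ?_⟩
  intro ν m hmν hν h14 h2m χ hχ G hG hG0 γ hγ
  have herr := hν₁ ν (le_trans (le_max_left _ _) hν)
  have hν2 : 2 ≤ ν := le_trans (le_max_right _ _) hν
  have hm : 1 ≤ m := by
    by_contra hcon
    have h0 : m = 0 := by omega
    rw [h0, Nat.cast_zero] at h14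
    have h1 : (0 : ℝ) < (1 / 4 + δ) * ν := by
      have : (0 : ℝ) < ν := by exact_mod_cast (by omega : 0 < ν)
      positivity
    linarith
  have hd3 : 3 ≤ p ^ m := hp3.trans (Nat.le_self_pow (by omega) p)
  obtain ⟨Q, hQ⟩ : ∃ Q : ℝ, Q = ((p ^ ν : ℕ) : ℝ) := ⟨_, rfl⟩
  have hQ1 : 1 < Q := by
    rw [hQ]
    exact_mod_cast Nat.one_lt_pow (by omega : ν ≠ 0) (by omega)
  have hQ0 : 0 < Q := by linarith
  have hdQ : Q ^ (1 / 4 + δ) ≤ ((p ^ m : ℕ) : ℝ) := by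
    have hp1 : (1 : ℝ) ≤ p := by exact_mod_cast hp.one_le
    rw [hQ]
    push_cast
    rw [← Real.rpow_natCast, ← Real.rpow_natCast, ← Real.rpow_mul (by positivity)]
    apply Real.rpow_le_rpow_of_exponent_le hp1
    linarith
  have hfp := first_part (pow_dvd_pow p hmν.le) χ hG (by rw [← hQ]; exact hQ1) hκ t hG0 hd3
  have hsp := second_part hCM hM hp hp3 hm h2m (pow_dvd_pow p hmν.le) χ hχ hG hκ
    (by linarith) t hG0 γ hγ
  rw [← hQ] at hfp hsp herr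
  obtain ⟨n1, n2, n3, n4⟩ := num2 hQ1.le hκ hκ1 hκδ hdQ
  obtain ⟨φ, hφ⟩ : ∃ φ : ℝ, φ = ((p ^ m).totient : ℝ) := ⟨_, rfl⟩
  have hφ0 : 0 ≤ φ := by rw [hφ]; positivity
  have hφd : (2 / 3 : ℝ) * (p : ℝ) ^ m ≤ φ := by
    rw [hφ, Nat.totient_prime_pow hp (by omega)]
    push_cast
    rw [Nat.cast_sub hp.one_le, Nat.cast_one]
    have hp3r : (3 : ℝ) ≤ p := by exact_mod_cast hp3
    obtain ⟨k, rfl⟩ : ∃ k, m = k + 1 := ⟨m - 1, by omega⟩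
    rw [Nat.add_sub_cancel, pow_succ]
    have h1 : (0 : ℝ) < (p : ℝ) ^ k := by positivity
    nlinarith
  have hsqp : 0 ≤ Real.sqrt p := Real.sqrt_nonneg _
  -- the two bounds
  have hf2 : Real.sqrt (2 / ((p ^ m : ℕ) : ℝ)) * Q ^ κ = Q ^ κ * Real.sqrt (2 / ((p ^ m : ℕ) : ℝ)) :=
    mul_comm _ _
  have hE : C * (Q ^ κ * (Real.sqrt (2 / ((p ^ m : ℕ) : ℝ)) +
        2 * Real.sqrt (Q ^ (1 / 2 + κ)) / ((p ^ m : ℕ) : ℝ))) +
      Real.sqrt p * (C * (Q ^ κ * (Real.sqrt (2 * Q ^ κ / ((p ^ m : ℕ) : ℝ)) +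
          2 * Real.sqrt (Q ^ (1 / 2 + κ)) / ((p ^ m : ℕ) : ℝ))) +
        C * (Q ^ κ * Real.sqrt (2 * (Q ^ κ) ^ 2 / ((p ^ m : ℕ) : ℝ))) +
        8 * Real.sqrt p * CM * C / (κ * Real.log Q)) ≤ ε := by
    refine le_trans ?_ herr
    unfold err
    apply add_le_add
    · apply mul_le_mul_of_nonneg_left _ hC.le
      rw [mul_add]
      exact add_le_add n1 n4
    · apply mul_le_mul_of_nonneg_left _ hsqp
      apply add_le_add _ le_rfl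
      apply add_le_add
      · apply mul_le_mul_of_nonneg_left _ hC.le
        rw [mul_add]
        exact add_le_add n2 n4
      · exact mul_le_mul_of_nonneg_left n3 hC.le
  rw [← hφ] at hfp hsp
  obtain ⟨S1, hS1⟩ : ∃ S1 : ℂ, S1 = ∑ θ ∈ EE (pow_dvd_pow p hmν.le) χ,
      AA (χ * DirichletCharacter.changeLevel (pow_dvd_pow p hmν.le) θ) G t *
      MM (χ * DirichletCharacter.changeLevel (pow_dvd_pow p hmν.le) θ) κ t := ⟨_, rfl⟩
  obtain ⟨S2, hS2⟩ : ∃ S2 : ℂ, S2 = ∑ θ ∈ EE (pow_dvd_pow p hmν.le) χ,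
      γ * (gaussSum (χ * DirichletCharacter.changeLevel (pow_dvd_pow p hmν.le) θ)
        ZMod.stdAddChar / (Real.sqrt ((p : ℝ) ^ ν) : ℂ)) *
        (starRingEnd ℂ) (AA (χ * DirichletCharacter.changeLevel (pow_dvd_pow p hmν.le) θ) G t) *
      MM (χ * DirichletCharacter.changeLevel (pow_dvd_pow p hmν.le) θ) κ t := ⟨_, rfl⟩
  rw [← hS1] at hfp
  rw [← hS2] at hsp
  have hgoal : (∑ θ ∈ (univ : Finset (DirichletCharacter ℂ (p ^ m))).filter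
      (fun θ => (χ * DirichletCharacter.changeLevel (pow_dvd_pow p hmν.le) θ).Even),
    (AA (χ * DirichletCharacter.changeLevel (pow_dvd_pow p hmν.le) θ) G t +
      γ * (gaussSum (χ * DirichletCharacter.changeLevel (pow_dvd_pow p hmν.le) θ) ZMod.stdAddChar /
        (Real.sqrt ((p : ℝ) ^ ν) : ℂ)) *
      (starRingEnd ℂ) (AA (χ * DirichletCharacter.changeLevel (pow_dvd_pow p hmν.le) θ) G t)) *
      MM (χ * DirichletCharacter.changeLevel (pow_dvd_pow p hmν.le) θ) κ t) = S1 + S2 := by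
    rw [hS1, hS2, ← Finset.sum_add_distrib]
    unfold EE
    refine Finset.sum_congr (by congr) fun θ _ => ?_
    rw [add_mul]
  rw [hgoal]
  have hfin : ‖S1 + S2 - ((p ^ m).totient : ℂ) / 2 * G 0‖ ≤
      ‖S1 - ((p ^ m).totient : ℂ) / 2 * G 0‖ + ‖S2‖ := by
    have h1 : S1 + S2 - ((p ^ m).totient : ℂ) / 2 * G 0 =
        (S1 - ((p ^ m).totient : ℂ) / 2 * G 0) + S2 := by ring
    rw [h1]
    exact norm_add_le _ _
  have h9 := mul_le_mul_of_nonneg_left hE hφ0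
  rw [mul_add] at h9
  rw [← hφ]
  linarith

open Classical in
/-- the first moment with the second mollifier -/
theorem fmp0 (hMOB : Pool.Agent.Y766.R10.S_MOB) : ∀ δ κ t C : ℝ, 0 < δ → 0 < κ → 3 * κ ≤ δ →
  κ ≤ 1 / 100 → 0 < C →
  ∀ (p : ℕ) [Fact p.Prime], 3 ≤ p → ∃ ν₀ : ℕ, ∀ (ν m : ℕ) (hmν : m < ν), ν₀ ≤ ν →
  (1 / 4 + δ) * ν ≤ m → 2 * m ≤ ν → ∀ χ : DirichletCharacter ℂ (p ^ ν), χ.IsPrimitive →
  ∀ G : ℝ → ℂ, WG C G → (∀ v, 1 / 2 + κ / 2 ≤ v → G v = 0) → ‖G 0 - 1‖ ≤ 1 / 4 →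
  ∀ γ : ℂ, ‖γ‖ = 1 →
  (p : ℝ) ^ m / 8 ≤ ‖∑ θ ∈ (univ : Finset (DirichletCharacter ℂ (p ^ m))).filter
      (fun θ => (χ * DirichletCharacter.changeLevel (pow_dvd_pow p hmν.le) θ).Even),
    (AA (χ * DirichletCharacter.changeLevel (pow_dvd_pow p hmν.le) θ) G t +
      γ * (gaussSum (χ * DirichletCharacter.changeLevel (pow_dvd_pow p hmν.le) θ) ZMod.stdAddChar /
        (Real.sqrt ((p : ℝ) ^ ν) : ℂ)) *
      (starRingEnd ℂ) (AA (χ * DirichletCharacter.changeLevel (pow_dvd_pow p hmν.le) θ) G t)) *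
      (2 * MM (χ * DirichletCharacter.changeLevel (pow_dvd_pow p hmν.le) θ) κ t -
        MM (χ * DirichletCharacter.changeLevel (pow_dvd_pow p hmν.le) θ) (κ / 2) t)‖ := by
  intro δ κ t C hδ hκ hκδ hκ1 hC p hpF hp3
  have hp : p.Prime := hpF.out
  obtain ⟨ν₁, h1⟩ := asym hMOB δ κ t C (1 / 16) hδ hκ hκδ hκ1 hC (by norm_num) p hp3
  obtain ⟨ν₂, h2⟩ := asym hMOB δ (κ / 2) t C (1 / 16) hδ (by linarith) (by linarith)
    (by linarith) hC (by norm_num) p hp3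
  refine ⟨max (max ν₁ ν₂) 1, ?_⟩
  intro ν m hmν hν h14 h2m χ hχ G hG hG0 hG1 γ hγ
  have e1 := h1 ν m hmν (by omega) h14 h2m χ hχ G hG
    (fun v hv => hG0 v (by linarith)) γ hγ
  have e2 := h2 ν m hmν (by omega) h14 h2m χ hχ G hG hG0 γ hγ
  have hm : 1 ≤ m := by
    by_contra hcon
    have h0 : m = 0 := by omega
    rw [h0, Nat.cast_zero] at h14
    have h3 : (0 : ℝ) < (1 / 4 + δ) * ν := by
      have : (0 : ℝ) < ν := by exact_mod_cast (by omega : 0 < ν)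
      positivity
    linarith
  obtain ⟨φ, hφ⟩ : ∃ φ : ℝ, φ = ((p ^ m).totient : ℝ) := ⟨_, rfl⟩
  have hφ0 : 0 ≤ φ := by rw [hφ]; positivity
  have hφd : (2 / 3 : ℝ) * (p : ℝ) ^ m ≤ φ := by
    rw [hφ, Nat.totient_prime_pow hp (by omega)]
    push_cast
    rw [Nat.cast_sub hp.one_le, Nat.cast_one]
    have hp3r : (3 : ℝ) ≤ p := by exact_mod_cast hp3
    obtain ⟨k, rfl⟩ : ∃ k, m = k + 1 := ⟨m - 1, by omega⟩
    rw [Nat.add_sub_cancel, pow_succ]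
    have h3 : (0 : ℝ) < (p : ℝ) ^ k := by positivity
    nlinarith
  have hG0n : 3 / 4 ≤ ‖G 0‖ := by
    have h3 : ‖(1 : ℂ)‖ ≤ ‖G 0‖ + ‖G 0 - 1‖ := by
      have h4 : (1 : ℂ) = G 0 - (G 0 - 1) := by ring
      calc ‖(1 : ℂ)‖ = ‖G 0 - (G 0 - 1)‖ := by rw [← h4]
        _ ≤ _ := norm_sub_le _ _
    rw [norm_one] at h3
    linarith
  have hmainn : ‖((p ^ m).totient : ℂ) / 2 * G 0‖ = φ / 2 * ‖G 0‖ := by
    rw [norm_mul, norm_div, Complex.norm_natCast, hφ]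
    norm_num
  rw [← hφ] at e1 e2
  set Z : ℂ := ((p ^ m).totient : ℂ) / 2 * G 0 with hZ
  set S1 : ℂ := ∑ θ ∈ (univ : Finset (DirichletCharacter ℂ (p ^ m))).filter
      (fun θ => (χ * DirichletCharacter.changeLevel (pow_dvd_pow p hmν.le) θ).Even),
    (AA (χ * DirichletCharacter.changeLevel (pow_dvd_pow p hmν.le) θ) G t +
      γ * (gaussSum (χ * DirichletCharacter.changeLevel (pow_dvd_pow p hmν.le) θ) ZMod.stdAddChar /
        (Real.sqrt ((p : ℝ) ^ ν) : ℂ)) *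
      (starRingEnd ℂ) (AA (χ * DirichletCharacter.changeLevel (pow_dvd_pow p hmν.le) θ) G t)) *
      MM (χ * DirichletCharacter.changeLevel (pow_dvd_pow p hmν.le) θ) κ t with hS1
  set S2 : ℂ := ∑ θ ∈ (univ : Finset (DirichletCharacter ℂ (p ^ m))).filter
      (fun θ => (χ * DirichletCharacter.changeLevel (pow_dvd_pow p hmν.le) θ).Even),
    (AA (χ * DirichletCharacter.changeLevel (pow_dvd_pow p hmν.le) θ) G t +
      γ * (gaussSum (χ * DirichletCharacter.changeLevel (pow_dvd_pow p hmν.le) θ) ZMod.stdAddChar /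
        (Real.sqrt ((p : ℝ) ^ ν) : ℂ)) *
      (starRingEnd ℂ) (AA (χ * DirichletCharacter.changeLevel (pow_dvd_pow p hmν.le) θ) G t)) *
      MM (χ * DirichletCharacter.changeLevel (pow_dvd_pow p hmν.le) θ) (κ / 2) t with hS2
  have hsum : ∑ θ ∈ (univ : Finset (DirichletCharacter ℂ (p ^ m))).filter
      (fun θ => (χ * DirichletCharacter.changeLevel (pow_dvd_pow p hmν.le) θ).Even),
    (AA (χ * DirichletCharacter.changeLevel (pow_dvd_pow p hmν.le) θ) G t +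
      γ * (gaussSum (χ * DirichletCharacter.changeLevel (pow_dvd_pow p hmν.le) θ) ZMod.stdAddChar /
        (Real.sqrt ((p : ℝ) ^ ν) : ℂ)) *
      (starRingEnd ℂ) (AA (χ * DirichletCharacter.changeLevel (pow_dvd_pow p hmν.le) θ) G t)) *
      (2 * MM (χ * DirichletCharacter.changeLevel (pow_dvd_pow p hmν.le) θ) κ t -
        MM (χ * DirichletCharacter.changeLevel (pow_dvd_pow p hmν.le) θ) (κ / 2) t) =
      2 * S1 - S2 := by
    rw [hS1, hS2, Finset.mul_sum, ← Finset.sum_sub_distrib]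
    refine Finset.sum_congr rfl fun θ _ => ?_
    ring
  rw [hsum]
  have hfin : ‖Z‖ ≤ ‖2 * S1 - S2‖ + (2 * ‖S1 - Z‖ + ‖S2 - Z‖) := by
    have h3 : Z = (2 * S1 - S2) - (2 * (S1 - Z) - (S2 - Z)) := by ring
    have h4 : ‖2 * (S1 - Z) - (S2 - Z)‖ ≤ 2 * ‖S1 - Z‖ + ‖S2 - Z‖ := by
      refine (norm_sub_le _ _).trans (le_of_eq ?_)
      rw [norm_mul, Complex.norm_ofNat]
    calc ‖Z‖ = ‖(2 * S1 - S2) - (2 * (S1 - Z) - (S2 - Z))‖ := by rw [← h3]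
      _ ≤ ‖2 * S1 - S2‖ + ‖2 * (S1 - Z) - (S2 - Z)‖ := norm_sub_le _ _
      _ ≤ _ := by linarith
  rw [hmainn] at hfin
  have h10 := mul_le_mul_of_nonneg_left hG0n (show 0 ≤ φ / 2 by positivity)
  linarith

end Pool.Agent.Y438.R13
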