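import Pool.Agent.Y766.R13.Stm
import Pool.Agent.Y438.R13.FmpA

/-!
# R13/FMP (helper438 for helper766, job 10219): the mollified first moment, second mollifier
-/

set_option autoImplicit false

namespace Pool.Agent.Y438.R13

/-- FMP -/
theorem fmp (h : Pool.Agent.Y766.R10.S_MOB) : Pool.Agent.Y766.R13.S_FMP := by
  intro δ κ t C hδ hκ hκδ hκ1 hC p hpF hp3
  exact fmp0 h δ κ t C hδ hκ (by linarith) hκ1 hC p hp3

end Pool.Agent.Y438.R13
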